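import Pool.Agent.TH964.SD.G5b

/-!
# Project SD, task G5: the almost complex structure, part c
-/

open scoped ContDiff Topology
open Set

noncomputable section

namespace Pool.Agent.TH964.SD
open Pool.Agent.TH179.SD

/-! ### Complex differentiable maps -/

lemma comm_of_complex {f : V → V} {q : V} (hf : DifferentiableAt ℂ f q) :
    (fderiv ℝ f q).comp iV = iV.comp (fderiv ℝ f q) := by
  rw [hf.fderiv_restrictScalars ℝ]
  ext1 v
  simp [iV_apply]

lemma differentiable_bd (j : Fin 4) : Differentiable ℂ (bd j) := by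
  rw [differentiable_pi]
  intro i
  unfold bd
  by_cases hi : i = j
  · simp only [hi, if_true]
    exact differentiable_apply j
  · simp only [hi, if_false]
    exact (differentiable_apply j).mul (differentiable_apply i)

lemma differentiableAt_tr_inl (j k : Fin 4) {q : V} (hq : q ∈ O (Sum.inl j) (Sum.inl k)) :
    DifferentiableAt ℂ (tr (Sum.inl j) (Sum.inl k)) q := by
  by_cases hjk : j = k
  · subst hjk; rw [tr_self]; exact differentiableAt_id
  rw [O_inl j k hjk] at hq
  have hk : q k ≠ 0 := hq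
  rw [tr_inl j k hjk, differentiableAt_pi]
  intro i
  have h1 : ∀ i : Fin 4, DifferentiableAt ℂ (fun v : V => v i) q := fun i =>
    (differentiable_apply i).differentiableAt
  by_cases hik : i = k
  · simp only [hik, if_true]
    exact (h1 j).mul (h1 k)
  · by_cases hij : i = j
    · subst hij
      simp only [hik, if_false, if_true]
      exact (h1 k).inv hk
    · simp only [hik, hij, if_false, div_eq_mul_inv]
      exact (h1 i).mul ((h1 k).inv hk)

/-! ### The cut-off -/

/-- the cut-off factor -/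
def eta (w : V) : ℝ := Real.smoothTransition ((N w - 1) / 3)

lemma contDiff_eta : ContDiff ℝ ∞ eta := by
  unfold eta
  exact Real.smoothTransition.contDiff.comp ((contDiff_N.sub contDiff_const).div_const 3)

lemma eta_zero {w : V} (h : N w ≤ 1) : eta w = 0 := by
  unfold eta
  exact Real.smoothTransition.zero_of_nonpos (by linarith)

lemma eta_one {w : V} (h : 4 ≤ N w) : eta w = 1 := by
  unfold eta
  exact Real.smoothTransition.one_of_one_le (by linarith)

/-- the frame, deformed so that it is constant near `0` -/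
def Th (T : V → V →L[ℝ] V) (w : V) : V →L[ℝ] V := T (eta w • w)

lemma Th_smooth {T : V → V →L[ℝ] V} (hT : ContDiff ℝ ∞ T) : ContDiff ℝ ∞ (Th T) := by
  unfold Th
  exact hT.comp (contDiff_eta.smul contDiff_id)

lemma Th_zero {T : V → V →L[ℝ] V} (hT : T 0 = ContinuousLinearMap.id ℝ V) {w : V} (h : N w ≤ 1) :
    Th T w = ContinuousLinearMap.id ℝ V := by
  unfold Th
  rw [eta_zero h, zero_smul, hT]

lemma Th_one {T : V → V →L[ℝ] V} {w : V} (h : 4 ≤ N w) : Th T w = T w := by
  unfold Th
  rw [eta_one h, one_smul]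

/-! ### The structure -/

/-- the frame in the chart `c`, in terms of `w` -/
def Fr (T : V → V →L[ℝ] V) (c : Idx) (q : V) : V →L[ℝ] V :=
  (Th T (toW c q)).comp (fderiv ℝ (toW c) q)

/-- the structure outside the domain of `w` -/
def E (TA : Fin 3 → V → V →L[ℝ] V) : Idx → V → V →L[ℝ] V
  | Sum.inl _ => fun _ => iV
  | Sum.inr c => fun q => K (TA c q)

open Classical in
/-- the almost complex structure -/
def JJ (T : V → V →L[ℝ] V) (TA : Fin 3 → V → V →L[ℝ] V) (c : Idx) (q : V) : V →L[ℝ] V :=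
  if q ∈ domW c then K (Fr T c q) else E TA c q

lemma det_fderiv_toW (h : TaskSmooth) (c : Idx) {q : V} (hq : q ∈ domW c) :
    (fderiv ℝ (toW c) q).det ≠ 0 := by
  have h1 : DifferentiableAt ℝ (toW c) q := (toW_smooth h c hq).differentiableAt (by simp)
  have h2 : DifferentiableAt ℝ (fromW c) (toW c q) :=
    (fromW_smooth h c (toW_rng c hq)).differentiableAt (by simp)
  have h3 : (fun y => fromW c (toW c y)) =ᶠ[𝓝 q] id := by
    filter_upwards [(isOpen_domW c).mem_nhds hq] with y hy using from_to c hy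
  have h4 : fderiv ℝ (fun y => fromW c (toW c y)) q = ContinuousLinearMap.id ℝ V := by
    rw [h3.fderiv_eq, fderiv_id]
  have h5 : fderiv ℝ (fun y => fromW c (toW c y)) q =
      (fderiv ℝ (fromW c) (toW c q)).comp (fderiv ℝ (toW c) q) :=
    fderiv_comp q h2 h1
  rw [h5] at h4
  exact det_ne_of_left_inv h4

lemma det_Fr (h : TaskSmooth) {T TA} (hF : Frame T TA) (c : Idx) {q : V} (hq : q ∈ domW c) :
    (Fr T c q).det ≠ 0 := by
  unfold Fr
  rw [det_comp]
  exact mul_ne_zero (hF.det _).ne' (det_fderiv_toW h c hq)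

lemma Fr_smooth (h : TaskSmooth) {T TA} (hF : Frame T TA) (c : Idx) {q : V} (hq : q ∈ domW c) :
    ContDiffAt ℝ ∞ (Fr T c) q := by
  have h1 := toW_smooth h c hq
  have h2 : ContDiffAt ℝ ∞ (fderiv ℝ (toW c)) q := h1.fderiv_right (by simp)
  have h3 : ContDiffAt ℝ ∞ (fun y => Th T (toW c y)) q :=
    (Th_smooth hF.smooth).contDiffAt.comp q h1
  exact h3.clm_comp h2

lemma JJ_dom {T TA} (c : Idx) {q : V} (hq : q ∈ domW c) : JJ T TA c q = K (Fr T c q) := by
  unfold JJ
  rw [if_pos hq]

lemma JJ_not {T TA} (c : Idx) {q : V} (hq : q ∉ domW c) : JJ T TA c q = E TA c q := by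
  unfold JJ
  rw [if_neg hq]

/-- near a point outside the domain of `w` -/
lemma JJ_inl (h : TaskSmooth) {T TA} (hF : Frame T TA) (j : Fin 4) {q : V}
    (hq : q ∉ domW (Sum.inl j)) : ∀ᶠ y in 𝓝 q, JJ T TA (Sum.inl j) y = iV := by
  have hq0 : q j = 0 := by
    by_contra h0
    exact hq h0
  have h1 : ∀ᶠ y in 𝓝 q, N (bd j y) < 1 := by
    have hc : Continuous fun y => N (bd j y) := contDiff_N.continuous.comp (contDiff_bd j).continuous
    have h2 : N (bd j q) < 1 := by rw [bd_zero j hq0, N_zero]; norm_num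
    exact hc.continuousAt.eventually_lt continuousAt_const h2
  filter_upwards [h1] with y hy
  by_cases hd : y ∈ domW (Sum.inl j)
  · rw [JJ_dom _ hd]
    have h3 : Fr T (Sum.inl j) y = fderiv ℝ (toW (Sum.inl j)) y := by
      unfold Fr
      rw [show Th T (toW (Sum.inl j) y) = ContinuousLinearMap.id ℝ V from Th_zero hF.zero hy.le]
      rfl
    rw [h3]
    apply K_of_comm (det_fderiv_toW h _ hd)
    exact comm_of_complex (differentiable_bd j y)
  · rw [JJ_not _ hd]
    rfl

/-- far from the origin, the structure comes from the frame `TA c` -/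
lemma Fr_far (h : TaskSmooth) {T TA} (hF : Frame T TA) (c : Fin 3) {y : V}
    (hy : y ∈ domW (Sum.inr c)) (hN : 4 ≤ N (toW (Sum.inr c) y)) :
    Fr T (Sum.inr c) y = TA c y := by
  have hr := toW_rng _ hy
  have h1 : DifferentiableAt ℝ (toW (Sum.inr c)) y := (toW_smooth h _ hy).differentiableAt (by simp)
  have h2 : DifferentiableAt ℝ (fromW (Sum.inr c)) (toW (Sum.inr c) y) :=
    (fromW_smooth h _ hr).differentiableAt (by simp)
  have h3 : (fun y => fromW (Sum.inr c) (toW (Sum.inr c) y)) =ᶠ[𝓝 y] id := by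
    filter_upwards [(isOpen_domW (Sum.inr c)).mem_nhds hy] with z hz using from_to (Sum.inr c) hz
  have h4 : fderiv ℝ (fun y => fromW (Sum.inr c) (toW (Sum.inr c) y)) y =
      ContinuousLinearMap.id ℝ V := by
    rw [h3.fderiv_eq, fderiv_id]
  have h5 : fderiv ℝ (fun y => fromW (Sum.inr c) (toW (Sum.inr c) y)) y =
      (fderiv ℝ (fromW (Sum.inr c)) (toW (Sum.inr c) y)).comp (fderiv ℝ (toW (Sum.inr c)) y) :=
    fderiv_comp y h2 h1
  rw [h5] at h4
  unfold Fr
  rw [Th_one hN, hF.compat c _ hr, from_to _ hy, ContinuousLinearMap.comp_assoc, h4]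
  rfl

lemma one_div_gt {a : ℝ} (h0 : 0 ≤ a) (h : a ≠ 0) (h1 : a < 1 / 4) : 4 ≤ 1 / a := by
  have h2 : 0 < a := lt_of_le_of_ne h0 h.symm
  rw [le_div_iff₀ h2]
  linarith

lemma far_of_near (c : Fin 3) {q : V} (hq : q ∉ domW (Sum.inr c)) :
    ∀ᶠ y in 𝓝 q, y ∈ domW (Sum.inr c) → 4 ≤ N (toW (Sum.inr c) y) := by
  have ha : na q = 0 → ∀ᶠ y in 𝓝 q, na y < 1 / 4 := fun h0 =>
    contDiff_na.continuous.continuousAt.eventually_lt continuousAt_const (by rw [h0]; norm_num)
  have hb : nb q = 0 → ∀ᶠ y in 𝓝 q, nb y < 1 / 4 := fun h0 =>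
    contDiff_nb.continuous.continuousAt.eventually_lt continuousAt_const (by rw [h0]; norm_num)
  fin_cases c
  · have h0 : na q = 0 := by
      by_contra h0
      exact hq h0
    filter_upwards [ha h0] with y hy hd
    show 4 ≤ na (invA y) + nb (invA y)
    rw [na_invA y hd]
    have := one_div_gt (na_nonneg y) hd hy
    have := nb_nonneg (invA y)
    linarith
  · have h0 : nb q = 0 := by
      by_contra h0
      exact hq h0
    filter_upwards [hb h0] with y hy hd
    show 4 ≤ na (invB y) + nb (invB y)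
    rw [nb_invB y hd]
    have := one_div_gt (nb_nonneg y) hd hy
    have := na_nonneg (invB y)
    linarith
  · by_cases h0 : na q = 0
    · filter_upwards [ha h0] with y hy hd
      show 4 ≤ na (invA (invB y)) + nb (invA (invB y))
      have h1 : na (invB y) ≠ 0 := by rw [na_invB]; exact hd.1
      rw [na_invA _ h1, na_invB]
      have := one_div_gt (na_nonneg y) hd.1 hy
      have := nb_nonneg (invA (invB y))
      linarith
    · have h0' : nb q = 0 := by
        by_contra h0'
        exact hq ⟨h0, h0'⟩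
      filter_upwards [hb h0'] with y hy hd
      show 4 ≤ na (invA (invB y)) + nb (invA (invB y))
      rw [nb_invA, nb_invB _ hd.2]
      have := one_div_gt (nb_nonneg y) hd.2 hy
      have := na_nonneg (invA (invB y))
      linarith

lemma JJ_inr (h : TaskSmooth) {T TA} (hF : Frame T TA) (c : Fin 3) {q : V}
    (hq : q ∉ domW (Sum.inr c)) : ∀ᶠ y in 𝓝 q, JJ T TA (Sum.inr c) y = K (TA c y) := by
  filter_upwards [far_of_near c hq] with y hy
  by_cases hd : y ∈ domW (Sum.inr c)
  · rw [JJ_dom _ hd, Fr_far h hF c hd (hy hd)]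
  · rw [JJ_not _ hd]
    rfl

lemma JJ_smooth (h : TaskSmooth) {T TA} (hF : Frame T TA) (c : Idx) :
    ContDiff ℝ ∞ (JJ T TA c) := by
  rw [contDiff_iff_contDiffAt]
  intro q
  by_cases hq : q ∈ domW c
  · have h1 : JJ T TA c =ᶠ[𝓝 q] fun y => K (Fr T c y) := by
      filter_upwards [(isOpen_domW c).mem_nhds hq] with y hy using JJ_dom c hy
    exact (K_smooth (Fr_smooth h hF c hq) (det_Fr h hF c hq)).congr_of_eventuallyEq h1
  · rcases c with j | c
    · have h1 : JJ T TA (Sum.inl j) =ᶠ[𝓝 q] fun _ => iV := JJ_inl h hF j hq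
      exact contDiffAt_const.congr_of_eventuallyEq h1
    · have h1 : JJ T TA (Sum.inr c) =ᶠ[𝓝 q] fun y => K (TA c y) := JJ_inr h hF c hq
      exact (K_smooth (hF.smoothA c).contDiffAt (hF.detA c q).ne').congr_of_eventuallyEq h1

lemma JJ_sq (h : TaskSmooth) {T TA} (hF : Frame T TA) (c : Idx) (q : V) :
    (JJ T TA c q).comp (JJ T TA c q) = -ContinuousLinearMap.id ℝ V := by
  by_cases hq : q ∈ domW c
  · rw [JJ_dom c hq]
    exact K_sq (det_Fr h hF c hq)
  · rw [JJ_not c hq]
    rcases c with j | c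
    · exact iV_sq
    · exact K_sq (hF.detA c q).ne'

lemma Fr_tr (h : TaskSmooth) {T} (c d : Idx) {q : V} (hq : q ∈ O c d)
    (hd : q ∈ domW c) : Fr T c q = (Fr T d (tr c d q)).comp (fderiv ℝ (tr c d) q) := by
  have hd' := (tr_dom_iff c d hq).1 hd
  have h1 : DifferentiableAt ℝ (toW d) (tr c d q) := (toW_smooth h d hd').differentiableAt (by simp)
  have hO := (h c d).1
  have h2 : DifferentiableAt ℝ (tr c d) q :=
    (((h c d).2.2.1 q hq).contDiffAt (hO.mem_nhds hq)).differentiableAt (by simp)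
  have h3 : (fun y => toW d (tr c d y)) =ᶠ[𝓝 q] toW c := by
    filter_upwards [hO.mem_nhds hq, (isOpen_domW c).mem_nhds hd] with y hy hy' using
      toW_tr c d hy hy'
  have h4 : fderiv ℝ (toW c) q = (fderiv ℝ (toW d) (tr c d q)).comp (fderiv ℝ (tr c d) q) := by
    rw [← h3.fderiv_eq]
    exact fderiv_comp q h1 h2
  unfold Fr
  rw [h4, toW_tr c d hq hd, ContinuousLinearMap.comp_assoc]

lemma JJ_compat (h : TaskSmooth) {T TA} (hF : Frame T TA) (c d : Idx) (q : V) (hq : q ∈ O c d) :
    (fderiv ℝ (tr c d) q).comp (JJ T TA c q) =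
      (JJ T TA d (tr c d q)).comp (fderiv ℝ (tr c d) q) := by
  have hdet : (fderiv ℝ (tr c d) q).det ≠ 0 := ((h c d).2.2.2.2 q hq).ne'
  by_cases hd : q ∈ domW c
  · have hd' := (tr_dom_iff c d hq).1 hd
    rw [JJ_dom c hd, JJ_dom d hd', Fr_tr h c d hq hd]
    exact K_comp (det_Fr h hF d hd') hdet
  · have hd' : tr c d q ∉ domW d := fun h1 => hd ((tr_dom_iff c d hq).2 h1)
    rw [JJ_not c hd, JJ_not d hd']
    rcases c with j | c <;> rcases d with k | d
    · exact comm_of_complex (differentiableAt_tr_inl j k hq)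
    · exact absurd hq.1 hd
    · exact absurd hq.1 hd
    · show (fderiv ℝ (tr (Sum.inr c) (Sum.inr d)) q).comp (K (TA c q)) = _
      rw [hF.compatA c d q hq]
      exact K_comp (hF.detA d _).ne' hdet

/-- **G5** -/
theorem taskJ : TaskSmooth → TaskJ := by
  rintro h ⟨T, TA, hF⟩
  exact ⟨JJ T TA, ⟨JJ_smooth h hF, JJ_sq h hF, JJ_compat h hF⟩⟩

end Pool.Agent.TH964.SD

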