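import Pool.Agent.TH179.SD.Lin

/-!
# Project SD, task G5: the almost complex structure, part a (linear algebra and coordinates)
-/

open scoped ContDiff Topology
open Set

noncomputable section

namespace Pool.Agent.TH964.SD
open Pool.Agent.TH179.SD

/-- multiplication by `i` -/
def iV : V →L[ℝ] V := (Complex.I • ContinuousLinearMap.id ℂ V).restrictScalars ℝ

lemma iV_apply (v : V) : iV v = Complex.I • v := rfl

lemma iV_sq : iV.comp iV = -ContinuousLinearMap.id ℝ V := by
  ext v i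
  simp [iV_apply, ← mul_assoc]

/-- `A⁻¹ i A` -/
def K (A : V →L[ℝ] V) : V →L[ℝ] V := A.inverse.comp (iV.comp A)

lemma exists_equiv {A : V →L[ℝ] V} (h : A.det ≠ 0) : ∃ e : V ≃L[ℝ] V, (e : V →L[ℝ] V) = A :=
  ⟨A.toContinuousLinearEquivOfDetNeZero h, A.coe_toContinuousLinearEquivOfDetNeZero h⟩

lemma K_equiv (e : V ≃L[ℝ] V) :
    K (e : V →L[ℝ] V) = (e.symm : V →L[ℝ] V).comp (iV.comp (e : V →L[ℝ] V)) := by
  unfold K
  rw [ContinuousLinearMap.inverse_equiv]

lemma K_sq {A : V →L[ℝ] V} (h : A.det ≠ 0) :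
    (K A).comp (K A) = -ContinuousLinearMap.id ℝ V := by
  obtain ⟨e, rfl⟩ := exists_equiv h
  rw [K_equiv]
  ext1 v
  have h1 : iV (iV (e v)) = -(e v) := by
    have := congrArg (fun L : V →L[ℝ] V => L (e v)) iV_sq
    simpa using this
  simp [h1]

lemma K_comp {A B : V →L[ℝ] V} (hA : A.det ≠ 0) (hB : B.det ≠ 0) :
    B.comp (K (A.comp B)) = (K A).comp B := by
  obtain ⟨e, rfl⟩ := exists_equiv hA
  obtain ⟨f, rfl⟩ := exists_equiv hB
  have h1 : (e : V →L[ℝ] V).comp (f : V →L[ℝ] V) = ((f.trans e : V ≃L[ℝ] V) : V →L[ℝ] V) := rfl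
  rw [h1, K_equiv, K_equiv]
  ext1 v
  simp

lemma K_of_comm {A : V →L[ℝ] V} (hA : A.det ≠ 0) (hc : A.comp iV = iV.comp A) : K A = iV := by
  obtain ⟨e, rfl⟩ := exists_equiv hA
  rw [K_equiv, ← hc]
  ext1 v
  simp

lemma K_smooth {F : V → V →L[ℝ] V} {q : V} (hF : ContDiffAt ℝ ∞ F q) (hd : (F q).det ≠ 0) :
    ContDiffAt ℝ ∞ (fun y => K (F y)) q := by
  obtain ⟨e, he⟩ := exists_equiv hd
  have h1 : ContDiffAt ℝ ∞ (fun A : V →L[ℝ] V => A.inverse) (F q) := by
    rw [← he]
    exact contDiffAt_map_inverse e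
  have h2 : ContDiffAt ℝ ∞ (fun y => (F y).inverse) q := h1.comp q hF
  exact h2.clm_comp (contDiffAt_const.clm_comp hF)

lemma det_comp (A B : V →L[ℝ] V) : (A.comp B).det = A.det * B.det := by
  unfold ContinuousLinearMap.det
  rw [← LinearMap.det_comp]
  rfl

lemma det_ne_of_left_inv {A B : V →L[ℝ] V} (h : A.comp B = ContinuousLinearMap.id ℝ V) :
    B.det ≠ 0 := by
  intro h0
  have h1 := det_comp A B
  rw [h, h0, mul_zero] at h1
  have h2 : (ContinuousLinearMap.id ℝ V).det = 1 := by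
    unfold ContinuousLinearMap.det
    exact LinearMap.det_id
  rw [h2] at h1
  exact one_ne_zero h1

/-- `|w|²` -/
def N (w : V) : ℝ := na w + nb w

lemma na_nonneg (w : V) : 0 ≤ na w := by unfold na; positivity
lemma nb_nonneg (w : V) : 0 ≤ nb w := by unfold nb; positivity

lemma contDiff_coord (i : Fin 4) : ContDiff ℝ ∞ (fun w : V => w i) := contDiff_apply ℝ ℂ i

lemma contDiff_re (i : Fin 4) : ContDiff ℝ ∞ (fun w : V => (w i).re) :=
  Complex.reCLM.contDiff.comp (contDiff_coord i)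

lemma contDiff_im (i : Fin 4) : ContDiff ℝ ∞ (fun w : V => (w i).im) :=
  Complex.imCLM.contDiff.comp (contDiff_coord i)

lemma contDiff_na : ContDiff ℝ ∞ na := by
  unfold na
  exact (((contDiff_re 0).pow 2).add ((contDiff_im 0).pow 2)).add ((contDiff_re 1).pow 2)

lemma contDiff_nb : ContDiff ℝ ∞ nb := by
  unfold nb
  exact (((((contDiff_im 1).pow 2).add ((contDiff_re 2).pow 2)).add ((contDiff_im 2).pow 2)).add
    ((contDiff_re 3).pow 2)).add ((contDiff_im 3).pow 2)

lemma contDiff_N : ContDiff ℝ ∞ N := contDiff_na.add contDiff_nb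

lemma N_zero : N 0 = 0 := by simp [N, na, nb]

lemma na_invA (w : V) (h : na w ≠ 0) : na (invA w) = 1 / na w := by
  have : na (invA w) = na w / na w ^ 2 := by
    conv_lhs => unfold na
    simp only [invA, Matrix.cons_val_zero, Matrix.cons_val_one]
    rw [div_pow, div_pow, div_pow, neg_sq, ← add_div, ← add_div]
    rfl
  rw [this]
  field_simp

lemma nb_invA (w : V) : nb (invA w) = nb w := by
  unfold nb
  simp [invA]

lemma nb_invB (w : V) (h : nb w ≠ 0) : nb (invB w) = 1 / nb w := by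
  have : nb (invB w) = nb w / nb w ^ 2 := by
    conv_lhs => unfold nb
    simp only [invB, Matrix.cons_val_zero, Matrix.cons_val_one, Matrix.cons_val]
    rw [div_pow, div_pow, div_pow, div_pow, div_pow, neg_sq, ← add_div, ← add_div, ← add_div,
      ← add_div]
    rfl
  rw [this]
  field_simp

lemma na_invB (w : V) : na (invB w) = na w := by
  unfold na
  simp [invB]

lemma invA_def (w : V) : invA w =
    ![⟨-(w 0).re / na w, (w 0).im / na w⟩, ⟨(w 1).re / na w, (w 1).im⟩, w 2, w 3] := rfl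

lemma invB_def (w : V) : invB w =
    ![w 0, ⟨(w 1).re, (w 1).im / nb w⟩, ⟨-(w 2).re / nb w, (w 2).im / nb w⟩,
      ⟨(w 3).re / nb w, (w 3).im / nb w⟩] := rfl

lemma inv_comm (w : V) : invA (invB w) = invB (invA w) := by
  rw [invA_def (invB w), invB_def (invA w), na_invB, nb_invA, invA_def, invB_def]
  ext i
  fin_cases i <;> simp

end Pool.Agent.TH964.SD
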