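import Pool.Agent.TH964.SD.G5a

/-!
# Project SD, task G5: the almost complex structure, part b (the coordinate changes)
-/

open scoped ContDiff Topology
open Set

noncomputable section

namespace Pool.Agent.TH964.SD
open Pool.Agent.TH179.SD

/-! ### The inversions -/

lemma invA_invA (w : V) (h : na w ≠ 0) : invA (invA w) = w := by
  have h1 := na_invA w h
  rw [invA_def (invA w), h1, invA_def w]
  ext i
  fin_cases i
  · apply Complex.ext
    · simp; field_simp
    · simp; field_simp
  · apply Complex.ext
    · simp; field_simp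
    · simp
  · simp
  · simp

lemma invB_invB (w : V) (h : nb w ≠ 0) : invB (invB w) = w := by
  have h1 := nb_invB w h
  rw [invB_def (invB w), h1, invB_def w]
  ext i
  fin_cases i
  · simp
  · apply Complex.ext
    · simp
    · simp; field_simp
  · apply Complex.ext
    · simp; field_simp
    · simp; field_simp
  · apply Complex.ext
    · simp; field_simp
    · simp; field_simp

lemma na_invA_ne (w : V) (h : na w ≠ 0) : na (invA w) ≠ 0 := by
  rw [na_invA w h]; exact one_div_ne_zero h

lemma nb_invB_ne (w : V) (h : nb w ≠ 0) : nb (invB w) ≠ 0 := by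
  rw [nb_invB w h]; exact one_div_ne_zero h

lemma isOpen_na : IsOpen {w : V | na w ≠ 0} := isOpen_ne_fun contDiff_na.continuous continuous_const
lemma isOpen_nb : IsOpen {w : V | nb w ≠ 0} := isOpen_ne_fun contDiff_nb.continuous continuous_const

lemma tr_12 : tr (Sum.inr 1) (Sum.inr 2) = invA := by simp [tr]
lemma O_12 : O (Sum.inr 1) (Sum.inr 2) = {q | na q ≠ 0} := by simp [O]
lemma tr_02 : tr (Sum.inr 0) (Sum.inr 2) = invB := by simp [tr]
lemma O_02 : O (Sum.inr 0) (Sum.inr 2) = {q | nb q ≠ 0} := by simp [O]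

lemma smooth_invA (h : TaskSmooth) {w : V} (hw : na w ≠ 0) : ContDiffAt ℝ ∞ invA w := by
  have h1 := (h (Sum.inr 1) (Sum.inr 2)).2.2.1
  rw [tr_12, O_12] at h1
  exact (h1 w hw).contDiffAt (isOpen_na.mem_nhds hw)

lemma smooth_invB (h : TaskSmooth) {w : V} (hw : nb w ≠ 0) : ContDiffAt ℝ ∞ invB w := by
  have h1 := (h (Sum.inr 0) (Sum.inr 2)).2.2.1
  rw [tr_02, O_02] at h1
  exact (h1 w hw).contDiffAt (isOpen_nb.mem_nhds hw)

/-! ### The blow-up -/

lemma contDiff_bd (j : Fin 4) : ContDiff ℝ ∞ (bd j) := by
  rw [contDiff_pi]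
  intro i
  unfold bd
  by_cases hi : i = j
  · simp only [hi, if_true]
    exact contDiff_coord j
  · simp only [hi, if_false]
    exact (contDiff_coord j).mul (contDiff_coord i)

lemma contDiffAt_bu (j : Fin 4) {w : V} (hw : w j ≠ 0) : ContDiffAt ℝ ∞ (bu j) w := by
  rw [contDiffAt_pi]
  intro i
  unfold bu
  by_cases hi : i = j
  · simp only [hi, if_true]
    exact (contDiff_coord j).contDiffAt
  · simp only [hi, if_false, div_eq_mul_inv]
    exact (contDiff_coord i).contDiffAt.mul ((contDiff_coord j).contDiffAt.inv hw)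

lemma bu_bd (j : Fin 4) {v : V} (hv : v j ≠ 0) : bu j (bd j v) = v := by
  funext i
  unfold bu bd
  by_cases hi : i = j
  · simp [hi]
  · simp [hi, hv]

lemma bd_bu (j : Fin 4) {w : V} (hw : w j ≠ 0) : bd j (bu j w) = w := by
  funext i
  unfold bu bd
  by_cases hi : i = j
  · simp [hi]
  · simp only [hi, if_false, if_true]
    field_simp

lemma bd_apply_self (j : Fin 4) (v : V) : bd j v j = v j := by simp [bd]
lemma bu_apply_self (j : Fin 4) (v : V) : bu j v j = v j := by simp [bu]

lemma bd_zero (j : Fin 4) {v : V} (hv : v j = 0) : bd j v = 0 := by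
  funext i
  simp [bd, hv]

/-! ### The sets -/

lemma isOpen_domW (c : Idx) : IsOpen (domW c) := by
  rcases c with j | c
  · exact isOpen_ne_fun (contDiff_coord j).continuous continuous_const
  · fin_cases c
    · exact isOpen_na
    · exact isOpen_nb
    · exact isOpen_na.inter isOpen_nb

lemma isOpen_rngW (c : Idx) : IsOpen (rngW c) := by
  rcases c with j | c
  · exact isOpen_ne_fun (contDiff_coord j).continuous continuous_const
  · fin_cases c
    · exact isOpen_na
    · exact isOpen_nb
    · exact isOpen_na.inter isOpen_nb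

lemma toW_smooth (h : TaskSmooth) (c : Idx) {q : V} (hq : q ∈ domW c) :
    ContDiffAt ℝ ∞ (toW c) q := by
  rcases c with j | c
  · exact (contDiff_bd j).contDiffAt
  · fin_cases c
    · exact smooth_invA h hq
    · exact smooth_invB h hq
    · have h1 : na (invB q) ≠ 0 := by rw [na_invB]; exact hq.1
      exact (smooth_invA h h1).comp q (smooth_invB h hq.2)

lemma fromW_smooth (h : TaskSmooth) (c : Idx) {q : V} (hq : q ∈ rngW c) :
    ContDiffAt ℝ ∞ (fromW c) q := by
  rcases c with j | c
  · exact contDiffAt_bu j hq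
  · fin_cases c
    · exact smooth_invA h hq
    · exact smooth_invB h hq
    · have h1 : na (invB q) ≠ 0 := by rw [na_invB]; exact hq.1
      exact (smooth_invA h h1).comp q (smooth_invB h hq.2)

lemma toW_rng (c : Idx) {q : V} (hq : q ∈ domW c) : toW c q ∈ rngW c := by
  rcases c with j | c
  · show bd j q j ≠ 0
    rw [bd_apply_self]; exact hq
  · fin_cases c
    · exact na_invA_ne q hq
    · exact nb_invB_ne q hq
    · refine ⟨?_, ?_⟩
      · show na (invA (invB q)) ≠ 0
        apply na_invA_ne; rw [na_invB]; exact hq.1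
      · show nb (invA (invB q)) ≠ 0
        rw [nb_invA]; exact nb_invB_ne q hq.2

lemma fromW_dom (c : Idx) {q : V} (hq : q ∈ rngW c) : fromW c q ∈ domW c := by
  rcases c with j | c
  · show bu j q j ≠ 0
    rw [bu_apply_self]; exact hq
  · fin_cases c
    · exact na_invA_ne q hq
    · exact nb_invB_ne q hq
    · refine ⟨?_, ?_⟩
      · show na (invA (invB q)) ≠ 0
        apply na_invA_ne; rw [na_invB]; exact hq.1
      · show nb (invA (invB q)) ≠ 0
        rw [nb_invA]; exact nb_invB_ne q hq.2

lemma invAB_invAB {q : V} (h1 : na q ≠ 0) (h2 : nb q ≠ 0) :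
    invA (invB (invA (invB q))) = q := by
  rw [← inv_comm (invB q), invB_invB q h2, invA_invA q h1]

lemma from_to (c : Idx) {q : V} (hq : q ∈ domW c) : fromW c (toW c q) = q := by
  rcases c with j | c
  · exact bu_bd j hq
  · fin_cases c
    · exact invA_invA q hq
    · exact invB_invB q hq
    · exact invAB_invAB hq.1 hq.2

lemma to_from (c : Idx) {q : V} (hq : q ∈ rngW c) : toW c (fromW c q) = q := by
  rcases c with j | c
  · exact bd_bu j hq
  · fin_cases c
    · exact invA_invA q hq
    · exact invB_invB q hq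
    · exact invAB_invAB hq.1 hq.2

/-! ### Coordinate changes in terms of `w` -/

lemma tr_inl (j k : Fin 4) (hjk : j ≠ k) : tr (Sum.inl j) (Sum.inl k) =
      fun v i => if i = k then v j * v k else if i = j then (v k)⁻¹ else v i / v k := by
  simp [tr, hjk]

lemma O_inl (j k : Fin 4) (hjk : j ≠ k) : O (Sum.inl j) (Sum.inl k) = {v | v k ≠ 0} := by
  simp [O, hjk]

lemma tr_self (c : Idx) : tr c c = id := by
  rcases c with j | c <;> simp [tr]

lemma tr_dom_iff (c d : Idx) {q : V} (hq : q ∈ O c d) : q ∈ domW c ↔ tr c d q ∈ domW d := by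
  by_cases hcd : c = d
  · subst hcd; rw [tr_self]; rfl
  rcases c with j | c <;> rcases d with k | d
  · have hjk : j ≠ k := fun h => hcd (by rw [h])
    rw [O_inl j k hjk] at hq
    rw [tr_inl j k hjk]
    show q j ≠ 0 ↔ (if k = k then q j * q k else _) ≠ 0
    have : q k ≠ 0 := hq
    simp [this]
  · exact ⟨fun _ => fromW_dom _ hq.2, fun _ => hq.1⟩
  · exact ⟨fun _ => fromW_dom _ hq.2, fun _ => hq.1⟩
  · fin_cases c <;> fin_cases d <;> simp [O, tr, domW, na_invB, nb_invA] at hq hcd ⊢
    · constructor
      · intro _; exact nb_invB_ne q hq.2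
      · intro _; exact hq.1
    · intro _; exact nb_invB_ne q hq
    · constructor
      · intro _; apply na_invA_ne; rw [na_invB]; exact hq.1
      · intro _; exact hq.2
    · intro _; exact na_invA_ne q hq
    · intro _; exact hq
    · intro _; exact hq

lemma toW_tr (c d : Idx) {q : V} (hq : q ∈ O c d) (hd : q ∈ domW c) :
    toW d (tr c d q) = toW c q := by
  by_cases hcd : c = d
  · subst hcd; rw [tr_self]; rfl
  rcases c with j | c <;> rcases d with k | d
  · have hjk : j ≠ k := fun h => hcd (by rw [h])
    rw [O_inl j k hjk] at hq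
    rw [tr_inl j k hjk]
    have h1 : q k ≠ 0 := hq
    have h2 : q j ≠ 0 := hd
    funext i
    simp only [toW, bd]
    by_cases hik : i = k
    · subst hik
      simp [hjk.symm]
    · by_cases hij : i = j
      · subst hij
        simp [hik, h1]
      · simp only [hik, hij, if_false, if_true]
        field_simp
  · exact to_from _ hq.2
  · exact to_from _ hq.2
  · fin_cases c <;> fin_cases d <;> simp [O, tr, domW, toW] at hq hcd hd ⊢
    · rw [← inv_comm, invB_invB q hq.2]
    · rw [invB_invB q hq]
    · rw [invA_invA _ (by rw [na_invB]; exact hq.1)]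
    · rw [← inv_comm, invA_invA _ (by rw [na_invB]; exact hq)]
    · rw [inv_comm]

end Pool.Agent.TH964.SD
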